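import Pool.Agent.Helper62.DSH.StA

/-! Project DSH, module ADJ: the weighted divergence is minus the adjoint of the exterior
derivative. -/

set_option autoImplicit false

open Set Filter Topology MeasureTheory
open Helper62.LH Helper62.DSH
open scoped ContDiff ENNReal

noncomputable section

namespace Pool.Agent.Helper48.DSH

theorem ipt_add_left {n j : ℕ} (s t r : Tn n j) : ipt (s + t) r = ipt s r + ipt t r := by
  unfold ipt
  rw [← add_div, ← Finset.sum_add_distrib]
  congr 1
  exact Finset.sum_congr rfl fun I _ => by rw [Pi.add_apply, add_mul]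

theorem ipt_smul_left {n j : ℕ} (c : ℝ) (s r : Tn n j) : ipt (c • s) r = c * ipt s r := by
  unfold ipt
  rw [← mul_div_assoc, Finset.mul_sum]
  congr 1
  exact Finset.sum_congr rfl fun I _ => by rw [Pi.smul_apply, smul_eq_mul, mul_assoc]

theorem ipt_zero_left {n j : ℕ} (r : Tn n j) : ipt (0 : Tn n j) r = 0 := by
  simp [ipt]

theorem ipt_zero_right {n j : ℕ} (r : Tn n j) : ipt r (0 : Tn n j) = 0 := by
  simp [ipt]

theorem ipt_sum_left {n j : ℕ} {ι : Type} (S : Finset ι) (s : ι → Tn n j) (r : Tn n j) :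
    ipt (∑ i ∈ S, s i) r = ∑ i ∈ S, ipt (s i) r := by
  classical
  induction S using Finset.induction_on with
  | empty => rw [Finset.sum_empty, Finset.sum_empty, ipt_zero_left]
  | insert a S ha ih => rw [Finset.sum_insert ha, Finset.sum_insert ha, ipt_add_left, ih]

theorem ipt_sub_left {n j : ℕ} (s t r : Tn n j) : ipt (s - t) r = ipt s r - ipt t r := by
  have h : s - t = s + (-1 : ℝ) • t := by
    rw [neg_smul, one_smul, sub_eq_add_neg]
  rw [h, ipt_add_left, ipt_smul_left]
  ring

theorem cont_ipt {n j : ℕ} {u v : E n → Tn n j} {N : WithTop ℕ∞} (hu : ContDiff ℝ N u)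
    (hv : ContDiff ℝ N v) : ContDiff ℝ N (fun x => ipt (u x) (v x)) := by
  unfold ipt
  apply ContDiff.div_const
  apply ContDiff.sum
  intro I _
  exact (contDiff_pi.1 hu I).mul (contDiff_pi.1 hv I)

theorem cont_ct {n j : ℕ} {u : E n → Tn n (j + 1)} {N : WithTop ℕ∞} (hu : ContDiff ℝ N u)
    (a : Fin n) : ContDiff ℝ N (fun x => ct a (u x)) := by
  rw [contDiff_pi]
  intro I
  exact contDiff_pi.1 hu (Fin.cons a I)

theorem vol_cont' {n : ℕ} {g : E n → Bl n} (hg : IsMet g) : Continuous (fun x => vol g x) := by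
  unfold vol
  apply Real.continuous_sqrt.comp
  apply Continuous.matrix_det
  apply continuous_matrix
  intro i j
  have h1 : Continuous g := hg.smooth.continuous
  exact (h1.clm_apply continuous_const).clm_apply continuous_const

theorem wt_cont {n : ℕ} {g : E n → Bl n} (hg : IsMet g) {f : E n → ℝ} (hf : ContDiff ℝ ∞ f) :
    Continuous (wt g f) := by
  have h : Continuous (fun x => Real.exp (-f x) * vol g x) :=
    (Real.continuous_exp.comp hf.continuous.neg).mul (vol_cont' hg)
  exact h

theorem hAdj (hSqd : TSqd) (hDer : TDer) (hLbz : TLbz) (hDvg : TDvg) : TAdj := by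
  intro n j g Γ F G hg hΓ hF f hf u hu hua β hβ hβc
  obtain ⟨D1, D2, -, -, -, -, -, D8⟩ := hDer n j g Γ F G hF
  obtain ⟨L1, -, -, L4⟩ := hLbz n j g Γ F G hF
  have hct : ∀ a, ContDiff ℝ ∞ (fun x => ct a (u x)) := fun a => cont_ct hu a
  have hY1 : ContDiff ℝ ∞ (fun (x : E n) (a : Fin n) => ipt (ct a (u x)) (β x)) := by
    rw [contDiff_pi]
    intro a
    exact cont_ipt (hct a) hβ
  have hYc : HasCompactSupport (fun (x : E n) (a : Fin n) => ipt (ct a (u x)) (β x)) := by
    refine hβc.mono fun x hx => ?_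
    intro h
    apply hx
    funext a
    show ipt (ct a (u x)) (β x) = 0
    rw [h, ipt_zero_right]
  have hdv := hDvg n g Γ F G hg hΓ hF f hf (fun (x : E n) (a : Fin n) => ipt (ct a (u x)) (β x))
    (hY1.of_le (by exact_mod_cast le_top)) hYc
  have key : ∀ x, (∑ a, (fderiv ℝ (fun y => ipt (ct a (u y)) (β y)) x (F a x) +
      ((∑ b, G x b a b) - fderiv ℝ f x (F a x)) * ipt (ct a (u x)) (β x))) =
      ipt (dlF F G f u x) (β x) + ipt (u x) (dF F G β x) := by
    intro x
    have e1 : ∀ a, fderiv ℝ (fun y => ipt (ct a (u y)) (β y)) x (F a x) =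
        ipt (ct a (cv F G u x a)) (β x) + (∑ c, G x a a c * ipt (ct c (u x)) (β x)) +
          ipt (ct a (u x)) (cv F G β x a) := by
      intro a
      rw [L1 (fun y => ct a (u y)) β (hct a) hβ x a, L4 u hu x a a, ipt_add_left, ipt_sum_left]
      congr 2
      exact Finset.sum_congr rfl fun c _ => ipt_smul_left _ _ _
    have e2 : ipt (dlF F G f u x) (β x) = ∑ a, (ipt (ct a (cv F G u x a)) (β x) -
        fderiv ℝ f x (F a x) * ipt (ct a (u x)) (β x)) := by
      unfold dlF
      rw [ipt_sum_left]
      exact Finset.sum_congr rfl fun a _ => by rw [ipt_sub_left, ipt_smul_left]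
    have e3 : ipt (u x) (dF F G β x) = ∑ a, ipt (ct a (u x)) (cv F G β x a) :=
      (hSqd n).2.1 j (u x) (cv F G β x) (hua x)
    have e4 : ∑ a, ∑ c, G x a a c * ipt (ct c (u x)) (β x) +
        ∑ a, (∑ b, G x b a b) * ipt (ct a (u x)) (β x) = 0 := by
      rw [Finset.sum_comm, ← Finset.sum_add_distrib]
      apply Finset.sum_eq_zero
      intro c _
      rw [← Finset.sum_mul, ← add_mul]
      have : (∑ a, G x a a c) + ∑ b, G x b c b = 0 := by
        rw [← Finset.sum_add_distrib]
        apply Finset.sum_eq_zero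
        intro a _
        rw [hF.anti x a a c]
        ring
      rw [this, zero_mul]
    rw [e2, e3]
    have e5 : ∀ a, fderiv ℝ (fun y => ipt (ct a (u y)) (β y)) x (F a x) +
        ((∑ b, G x b a b) - fderiv ℝ f x (F a x)) * ipt (ct a (u x)) (β x) =
        (ipt (ct a (cv F G u x a)) (β x) - fderiv ℝ f x (F a x) * ipt (ct a (u x)) (β x) +
          ipt (ct a (u x)) (cv F G β x a)) + ((∑ c, G x a a c * ipt (ct c (u x)) (β x)) +
            (∑ b, G x b a b) * ipt (ct a (u x)) (β x)) := by
      intro a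
      rw [e1 a]
      ring
    rw [← Finset.sum_add_distrib] at e4
    rw [Finset.sum_congr rfl fun a _ => e5 a, Finset.sum_add_distrib, Finset.sum_add_distrib, e4,
      add_zero]
  have hw := wt_cont hg hf
  have iA : Integrable (fun x => ipt (dlF F G f u x) (β x) * wt g f x) := by
    apply Continuous.integrable_of_hasCompactSupport
    · exact (cont_ipt (D2 f u hf hu) hβ).continuous.mul hw
    · refine hβc.mono fun x hx => ?_
      intro h
      apply hx
      show ipt (dlF F G f u x) (β x) * wt g f x = 0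
      rw [h, ipt_zero_right, zero_mul]
  have iB : Integrable (fun x => ipt (u x) (dF F G β x) * wt g f x) := by
    apply Continuous.integrable_of_hasCompactSupport
    · exact (cont_ipt hu (D1 β hβ).2).continuous.mul hw
    · refine HasCompactSupport.intro hβc fun x hx => ?_
      rw [(D8 β x hx).2.2, ipt_zero_right, zero_mul]
  have h2 : ∫ x, (ipt (dlF F G f u x) (β x) * wt g f x + ipt (u x) (dF F G β x) * wt g f x) = 0 := by
    rw [← hdv]
    refine integral_congr_ae (Eventually.of_forall fun x => ?_)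
    show ipt (dlF F G f u x) (β x) * wt g f x + ipt (u x) (dF F G β x) * wt g f x =
      (∑ a, (fderiv ℝ (fun y => ipt (ct a (u y)) (β y)) x (F a x) +
      ((∑ b, G x b a b) - fderiv ℝ f x (F a x)) * ipt (ct a (u x)) (β x))) * wt g f x
    rw [key x, add_mul]
  rw [integral_add iA iB] at h2
  linarith

end Pool.Agent.Helper48.DSH
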